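import Mathlib.Combinatorics.SimpleGraph.Finite
import Mathlib.Combinatorics.SimpleGraph.Connectivity.Connected
import Mathlib.Order.Partition.Finpartition
import Mathlib.Order.Lattice.Nat

/-! Definitions for MP_00dc5c_co (double coalition number). -/

namespace Pool.Agent.Work.MP_00dc5c_co

variable {V : Type} [Fintype V] [DecidableEq V] (G : SimpleGraph V) [DecidableRel G.Adj]

/-- `S` is double dominating: every closed neighbourhood `N[v]` meets `S` in at least 2 vertices. -/
def IsDoubleDom (S : Finset V) : Prop :=
  ∀ v : V, 2 ≤ (insert v (G.neighborFinset v) ∩ S).card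

/-- `A` and `B` form a double coalition. -/
def IsDoubleCoalition (A B : Finset V) : Prop :=
  Disjoint A B ∧ ¬ IsDoubleDom G A ∧ ¬ IsDoubleDom G B ∧ IsDoubleDom G (A ∪ B)

/-- A partition of the vertex set in which every member forms a double coalition with some other
member. -/
def IsDCPartition (P : Finpartition (Finset.univ : Finset V)) : Prop :=
  ∀ A ∈ P.parts, ∃ B ∈ P.parts, B ≠ A ∧ IsDoubleCoalition G A B

/-- The double coalition number: the largest size of a double coalition partition. -/
noncomputable def DC : ℕ :=
  sSup {k : ℕ | ∃ P : Finpartition (Finset.univ : Finset V), IsDCPartition G P ∧ P.parts.card = k}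

end Pool.Agent.Work.MP_00dc5c_co
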