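import Pool.Agent.Work.MP_00dc5c_co.Defs
import Mathlib.Tactic.Linarith
import Mathlib.Tactic.Ring
import Mathlib.Logic.Equiv.Fin.Rotate

/-! The extremal graphs: a cycle of cliques with one switched edge in each. -/

namespace Pool.Agent.Work.MP_00dc5c_co

open Finset

/-- A colouring all of whose classes have a coalition partner gives a coalition partition. -/
theorem exists_partition_of_col {V K : Type} [Fintype V] [DecidableEq V] [DecidableEq K]
    (G : SimpleGraph V) [DecidableRel G.Adj] (col : V → K) (T : Finset K)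
    (hT : ∀ v, col v ∈ T) (hsurj : ∀ k ∈ T, ∃ v, col v = k)
    (hnd : ∀ k ∈ T, ¬ IsDoubleDom G (univ.filter (fun v => col v = k)))
    (hp : ∀ k ∈ T, ∃ k' ∈ T, k' ≠ k ∧
      IsDoubleDom G (univ.filter (fun v => col v = k ∨ col v = k'))) :
    ∃ P : Finpartition (univ : Finset V), IsDCPartition G P ∧ P.parts.card = T.card := by
  classical
  let cl : K → Finset V := fun k => univ.filter (fun v => col v = k)
  have hinj : Set.InjOn cl T := by
    intro k hk k' _ h
    obtain ⟨v, hv⟩ := hsurj k hk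
    have : v ∈ cl k := by simp [cl, hv]
    rw [h] at this
    simp only [cl, mem_filter, mem_univ, true_and] at this
    rw [← hv, this]
  refine ⟨Finpartition.ofExistsUnique (T.image cl) (fun _ _ => subset_univ _) ?_ ?_, ?_, ?_⟩
  · intro v _
    refine ⟨cl (col v), ⟨mem_image_of_mem _ (hT v), by simp [cl]⟩, ?_⟩
    rintro t ⟨ht, hv⟩
    obtain ⟨k, _, rfl⟩ := mem_image.mp ht
    simp only [cl, mem_filter, mem_univ, true_and] at hv
    rw [hv]
  · intro h
    obtain ⟨k, hk, h'⟩ := mem_image.mp h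
    obtain ⟨v, hv⟩ := hsurj k hk
    have : v ∈ cl k := by simp [cl, hv]
    rw [h'] at this
    simp at this
  · intro A hA
    simp only [Finpartition.ofExistsUnique_parts] at hA ⊢
    obtain ⟨k, hk, rfl⟩ := mem_image.mp hA
    obtain ⟨k', hk', hne, hd⟩ := hp k hk
    refine ⟨cl k', mem_image_of_mem _ hk', fun h => hne (hinj hk' hk h), ?_, hnd k hk,
      hnd k' hk', ?_⟩
    · rw [Finset.disjoint_left]
      intro v h1 h2
      simp only [cl, mem_filter, mem_univ, true_and] at h1 h2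
      exact hne (h2.symm.trans h1)
    · have : cl k ∪ cl k' = univ.filter (fun v => col v = k ∨ col v = k') := by
        simp only [cl]
        rw [filter_or]
      rw [this]
      exact hd
  · simp only [Finpartition.ofExistsUnique_parts]
    exact card_image_of_injOn hinj

/-- Vertices: block `0` has `δ + 1` positions, the other `p` blocks have `Δ + 1` positions. -/
abbrev Vtx (p δ Δ : ℕ) : Type := {x : Fin (p + 1) × Fin (Δ + 1) // x.1 = 0 → x.2.val ≤ δ}

/-- The block of the neighbour in position `b` of a vertex in block `i`, position `a`. -/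
def shift {p : ℕ} (σ : Equiv.Perm (Fin (p + 1))) (i : Fin (p + 1)) (a b : ℕ) : Fin (p + 1) :=
  if a = 0 ∧ b = 1 then σ i else if a = 1 ∧ b = 0 then σ.symm i else i

theorem shift_symm {p : ℕ} (σ : Equiv.Perm (Fin (p + 1))) (i j : Fin (p + 1)) (a b : ℕ)
    (h : j = shift σ i a b) : i = shift σ j b a := by
  unfold shift at *
  by_cases h1 : a = 0 ∧ b = 1
  · obtain ⟨rfl, rfl⟩ := h1
    simp at h ⊢
    simp [h]
  · by_cases h2 : a = 1 ∧ b = 0
    · obtain ⟨rfl, rfl⟩ := h2
      simp at h ⊢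
      simp [h]
    · rw [if_neg h1, if_neg h2] at h
      rw [if_neg (fun h => h2 ⟨h.2, h.1⟩), if_neg (fun h => h1 ⟨h.2, h.1⟩), h]

/-- The graph. -/
def gr (p δ Δ : ℕ) (σ : Equiv.Perm (Fin (p + 1))) : SimpleGraph (Vtx p δ Δ) where
  Adj x y := x.1.2 ≠ y.1.2 ∧ y.1.1 = shift σ x.1.1 x.1.2.val y.1.2.val
  symm := ⟨fun _ _ h => ⟨h.1.symm, shift_symm σ _ _ _ _ h.2⟩⟩
  loopless := ⟨fun _ h => h.1 rfl⟩

instance (p δ Δ : ℕ) (σ : Equiv.Perm (Fin (p + 1))) : DecidableRel (gr p δ Δ σ).Adj :=
  fun x y => inferInstanceAs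
    (Decidable (x.1.2 ≠ y.1.2 ∧ y.1.1 = shift σ x.1.1 x.1.2.val y.1.2.val))

theorem mem_closed {p δ Δ : ℕ} (σ : Equiv.Perm (Fin (p + 1))) (x y : Vtx p δ Δ) :
    y ∈ insert x ((gr p δ Δ σ).neighborFinset x) ↔
      y.1.1 = shift σ x.1.1 x.1.2.val y.1.2.val := by
  rw [mem_insert, SimpleGraph.mem_neighborFinset]
  constructor
  · rintro (rfl | h)
    · unfold shift
      rw [if_neg (by omega), if_neg (by omega)]
    · exact h.2
  · intro h
    by_cases h2 : x.1.2 = y.1.2
    · left
      apply Subtype.ext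
      apply Prod.ext _ h2.symm
      rw [h, h2]
      unfold shift
      rw [if_neg (by omega), if_neg (by omega)]
    · exact Or.inr ⟨h2, h⟩

/-- Counting in a closed neighbourhood reduces to counting in a block. -/
theorem card_closed {p δ Δ : ℕ} (hδ : 1 ≤ δ) (σ : Equiv.Perm (Fin (p + 1)))
    (Q : Fin (p + 1) → ℕ → Prop) [∀ i b, Decidable (Q i b)]
    (hQ : ∀ i b, b ≤ 1 → (Q (σ i) b ↔ Q i b)) (x : Vtx p δ Δ) :
    (insert x ((gr p δ Δ σ).neighborFinset x) ∩ univ.filter (fun y => Q y.1.1 y.1.2.val)).card =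
      ((range (Δ + 1)).filter (fun b => (x.1.1 = 0 → b ≤ δ) ∧ Q x.1.1 b)).card := by
  have hsh : ∀ i a b, Q (shift σ i a b) b ↔ Q i b := by
    intro i a b
    unfold shift
    split_ifs with h1 h2
    · exact hQ i b (by omega)
    · have := hQ (σ.symm i) b (by omega)
      rw [Equiv.apply_symm_apply] at this
      exact this.symm
    · rfl
  have hval : ∀ (i : Fin (p + 1)) (a b : ℕ),
      (shift σ i a b = 0 → b ≤ δ) ↔ (i = 0 → b ≤ δ) := by
    intro i a b
    unfold shift
    split_ifs with h1 h2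
    · constructor <;> intros <;> omega
    · constructor <;> intros <;> omega
    · rfl
  refine Finset.card_bij (fun y _ => y.1.2.val) ?_ ?_ ?_
  · intro y hy
    rw [mem_inter, mem_closed] at hy
    have h2 := (mem_filter.mp hy.2).2
    have h3 := y.2
    rw [hy.1] at h2 h3
    exact mem_filter.mpr ⟨mem_range.mpr y.1.2.isLt, (hval _ _ _).mp h3, (hsh _ _ _).mp h2⟩
  · intro y hy z hz h
    rw [mem_inter, mem_closed] at hy hz
    apply Subtype.ext
    apply Prod.ext _ (Fin.ext h)
    rw [hy.1, hz.1, h]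
  · intro b hb
    obtain ⟨h1, h2, h3⟩ := mem_filter.mp hb
    refine ⟨⟨(shift σ x.1.1 x.1.2.val b, ⟨b, mem_range.mp h1⟩), (hval _ _ _).mpr h2⟩, ?_, rfl⟩
    rw [mem_inter, mem_closed]
    exact ⟨rfl, mem_filter.mpr ⟨mem_univ _, (hsh _ _ _).mpr h3⟩⟩

theorem degree_gr {p δ Δ : ℕ} (hδ : 1 ≤ δ) (hδΔ : δ ≤ Δ) (σ : Equiv.Perm (Fin (p + 1)))
    (x : Vtx p δ Δ) : (gr p δ Δ σ).degree x = if x.1.1 = 0 then δ else Δ := by
  have h := card_closed (δ := δ) (Δ := Δ) hδ σ (fun _ _ => True) (fun _ _ _ => Iff.rfl) x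
  rw [filter_true, inter_univ, card_insert_of_notMem (by simp),
    SimpleGraph.card_neighborFinset_eq_degree] at h
  split_ifs with h0
  · have : (range (Δ + 1)).filter (fun b => (x.1.1 = 0 → b ≤ δ) ∧ True) = range (δ + 1) := by
      ext b
      simp only [h0, mem_filter, mem_range, forall_const, and_true]
      omega
    rw [this, card_range] at h
    omega
  · have : (range (Δ + 1)).filter (fun b => (x.1.1 = 0 → b ≤ δ) ∧ True) = range (Δ + 1) := by
      ext b
      simp [h0]
    rw [this, card_range] at h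
    omega

theorem minDegree_gr {p δ Δ : ℕ} (hδ : 1 ≤ δ) (hδΔ : δ ≤ Δ) (σ : Equiv.Perm (Fin (p + 1))) :
    (gr p δ Δ σ).minDegree = δ := by
  let x0 : Vtx p δ Δ := ⟨(0, 0), fun _ => Nat.zero_le _⟩
  have : Nonempty (Vtx p δ Δ) := ⟨x0⟩
  apply le_antisymm
  · have := (gr p δ Δ σ).minDegree_le_degree x0
    rwa [degree_gr hδ hδΔ, if_pos rfl] at this
  · apply SimpleGraph.le_minDegree_of_forall_le_degree
    intro x
    rw [degree_gr hδ hδΔ]
    split_ifs <;> omega

theorem maxDegree_gr {p δ Δ : ℕ} (hp : 1 ≤ p) (hδ : 1 ≤ δ) (hδΔ : δ ≤ Δ)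
    (σ : Equiv.Perm (Fin (p + 1))) : (gr p δ Δ σ).maxDegree = Δ := by
  have h10 : (⟨1, by omega⟩ : Fin (p + 1)) ≠ 0 := by
    intro h
    have := congrArg Fin.val h
    simp at this
  let x1 : Vtx p δ Δ := ⟨(⟨1, by omega⟩, 0), fun _ => Nat.zero_le _⟩
  apply le_antisymm
  · apply SimpleGraph.maxDegree_le_of_forall_degree_le
    intro x
    rw [degree_gr hδ hδΔ]
    split_ifs <;> omega
  · have := (gr p δ Δ σ).degree_le_maxDegree x1
    rwa [degree_gr hδ hδΔ, if_neg h10] at this

theorem connected_gr {p δ Δ : ℕ} (hδ : 2 ≤ δ) (hδΔ : δ ≤ Δ) :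
    (gr p δ Δ (finRotate (p + 1))).Connected := by
  let v : Fin (p + 1) → Vtx p δ Δ := fun i => ⟨(i, ⟨2, by omega⟩), fun _ => hδ⟩
  have h1 : ∀ x : Vtx p δ Δ, (gr p δ Δ (finRotate (p + 1))).Reachable (v x.1.1) x := by
    intro x
    by_cases h : (v x.1.1).1.2 = x.1.2
    · have : v x.1.1 = x := Subtype.ext (Prod.ext rfl h)
      rw [this]
    · apply SimpleGraph.Adj.reachable
      refine ⟨h, ?_⟩
      simp [shift, v]
  have h2 : ∀ i : Fin (p + 1), (gr p δ Δ (finRotate (p + 1))).Reachable (v 0) (v i) := by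
    intro i
    induction i using Fin.induction with
    | zero => rfl
    | succ i ih =>
      let a : Vtx p δ Δ := ⟨(i.castSucc, 0), fun _ => Nat.zero_le _⟩
      let b : Vtx p δ Δ := ⟨(i.succ, ⟨1, by omega⟩), fun _ => by simp; omega⟩
      have hab : (gr p δ Δ (finRotate (p + 1))).Adj a b := by
        refine ⟨?_, ?_⟩
        · intro h
          have := congrArg Fin.val h
          simp [a, b] at this
        · simp [shift, a, b]
      exact ((ih.trans (h1 a)).trans hab.reachable).trans (h1 b).symm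
  have : Nonempty (Vtx p δ Δ) := ⟨v 0⟩
  exact ⟨fun x y => ((h2 x.1.1).trans (h1 x)).symm.trans ((h2 y.1.1).trans (h1 y))⟩

/-- The colouring: `(j, 0)` is the centre class of star `j`, `(j, s)` with `s ≥ 1` a leaf class. -/
def colf (p δ : ℕ) (i b : ℕ) : ℕ × ℕ :=
  if i = 0 then
    (if p = 1 ∧ b = 1 ∧ 2 ≤ δ then (0, 1) else if b < p then (b, 0)
      else if b < 2 * p then (b - p, 0) else (0, 0))
  else
    (if b < p then (b, 0) else if b + 1 < 2 * p then
      (if b - p < i - 1 then (b - p, 0) else (b - p + 1, 0)) else (i - 1, b + 2 - 2 * p))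

theorem colf_low (p δ : ℕ) (hp : 1 ≤ p) (hδ : 2 ≤ δ) (i i' b : ℕ) (hi : i ≤ p) (hi' : i' ≤ p)
    (hb : b ≤ 1) : colf p δ i b = colf p δ i' b := by
  unfold colf
  split_ifs <;> first | rfl | omega | (ext <;> simp <;> omega)

theorem colf_leaf (p δ j s : ℕ) (hs : 1 ≤ s) (hp : 1 ≤ p) :
    colf p δ (j + 1) (s + 2 * p - 2) = (j, s) := by
  unfold colf
  rw [if_neg (by omega), if_neg (by omega), if_neg (by omega)]
  ext
  · simp
  · simp only
    omega

theorem colf_two (δ : ℕ) : colf 1 δ 0 2 = (0, 0) := by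
  simp [colf]

theorem colf_zero (δ : ℕ) : colf 1 δ 0 0 = (0, 0) := by
  simp [colf]

theorem exists_partition_gr {p δ Δ : ℕ} (hp : 1 ≤ p) (hpδ : 2 * p ≤ δ + 1) (hδΔ : δ ≤ Δ)
    (σ : Equiv.Perm (Fin (p + 1))) (hσ : 2 ≤ δ ∨ σ = Equiv.refl _) :
    ∃ P : Finpartition (univ : Finset (Vtx p δ Δ)), IsDCPartition (gr p δ Δ σ) P ∧
      P.parts.card = p * (Δ + 3 - 2 * p) := by
  have hδ : 1 ≤ δ := by omega
  have hinv : ∀ (i : Fin (p + 1)) (b : ℕ), b ≤ 1 → colf p δ (σ i).val b = colf p δ i.val b := by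
    intro i b hb
    rcases hσ with h | h
    · exact colf_low p δ hp h _ _ b (Nat.lt_succ_iff.mp (σ i).isLt) (Nat.lt_succ_iff.mp i.isLt) hb
    · rw [h]
      rfl
  have hz : ∀ i : Fin (p + 1), i = 0 ↔ i.val = 0 := fun i => by
    rw [Fin.ext_iff]
    rfl
  have h := exists_partition_of_col (gr p δ Δ σ) (fun y => colf p δ y.1.1.val y.1.2.val)
    (range p ×ˢ range (Δ + 3 - 2 * p)) ?_ ?_ ?_ ?_
  · simpa using h
  · intro v
    have h1 := v.1.1.isLt
    have h2 := v.1.2.isLt
    simp only [colf, mem_product, mem_range]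
    split_ifs <;> simp only <;> omega
  · rintro ⟨j, s⟩ hk
    simp only [mem_product, mem_range] at hk
    have hne : (⟨j + 1, by omega⟩ : Fin (p + 1)) ≠ 0 := by
      rw [Ne, hz]
      simp
    rcases Nat.eq_zero_or_pos s with rfl | hs
    · refine ⟨⟨(⟨j + 1, by omega⟩, ⟨j, by omega⟩), fun h => absurd h hne⟩, ?_⟩
      simp only [colf]
      split_ifs <;> first | rfl | omega
    · exact ⟨⟨(⟨j + 1, by omega⟩, ⟨s + 2 * p - 2, by omega⟩), fun h => absurd h hne⟩,
        colf_leaf p δ j s hs hp⟩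
  · rintro ⟨j, s⟩ hk hd
    simp only [mem_product, mem_range] at hk
    have hne : (⟨j + 1, by omega⟩ : Fin (p + 1)) ≠ 0 := by
      rw [Ne, hz]
      simp
    have h1 := hd ⟨(⟨j + 1, by omega⟩, 0), fun h => absurd h hne⟩
    rw [card_closed hδ σ (fun i b => colf p δ i.val b = (j, s))
      (fun i b hb => by rw [hinv i b hb])] at h1
    obtain ⟨a, ha, b, hb, hab⟩ := Finset.one_lt_card.mp h1
    have ha' := (mem_filter.mp ha).2.2
    have hb' := (mem_filter.mp hb).2.2
    simp only [colf] at ha' hb'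
    split_ifs at ha' hb' <;> simp only [Prod.mk.injEq] at ha' hb' <;> omega
  · have key : ∀ j s, j < p → 1 ≤ s → s < Δ + 3 - 2 * p →
        ∀ k k' : ℕ × ℕ, (k = (j, 0) ∧ k' = (j, s)) ∨ (k = (j, s) ∧ k' = (j, 0)) →
        IsDoubleDom (gr p δ Δ σ) (univ.filter (fun v => colf p δ v.1.1.val v.1.2.val = k ∨
          colf p δ v.1.1.val v.1.2.val = k')) := by
      intro j s hj hs hs' k k' hkk x
      rw [card_closed hδ σ (fun i b => colf p δ i.val b = k ∨ colf p δ i.val b = k')
        (fun i b hb => by rw [hinv i b hb])]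
      have hx := x.1.1.isLt
      have hgoal : ∃ a b, a ≠ b ∧ (a < Δ + 1 ∧ (x.1.1.val = 0 → a ≤ δ) ∧
          colf p δ x.1.1.val a = (j, 0)) ∧ (b < Δ + 1 ∧ (x.1.1.val = 0 → b ≤ δ) ∧
          (colf p δ x.1.1.val b = (j, 0) ∨ colf p δ x.1.1.val b = (j, s))) := by
        generalize x.1.1.val = i at *
        by_cases hi : i = 0
        · by_cases h2 : p = 1 ∧ 2 ≤ δ
          · obtain ⟨rfl, h2⟩ := h2
            obtain rfl : j = 0 := by omega
            subst hi
            exact ⟨0, 2, by omega, ⟨by omega, by omega, colf_zero δ⟩, by omega, by omega,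
              Or.inl (colf_two δ)⟩
          · refine ⟨j, j + p, by omega, ⟨by omega, by omega, ?_⟩, by omega, by omega,
              Or.inl ?_⟩ <;>
            · simp only [colf]
              split_ifs <;> first | omega | (ext <;> simp only <;> omega)
        · by_cases h2 : i = j + 1
          · refine ⟨j, s + 2 * p - 2, by omega, ⟨by omega, by omega, ?_⟩, by omega, by omega,
              Or.inr ?_⟩ <;>
            · simp only [colf]
              split_ifs <;> first | omega | (ext <;> simp only <;> omega)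
          · by_cases h3 : j < i - 1
            · refine ⟨j, j + p, by omega, ⟨by omega, by omega, ?_⟩, by omega, by omega,
                Or.inl ?_⟩ <;>
              · simp only [colf]
                split_ifs <;> first | omega | (ext <;> simp only <;> omega)
            · refine ⟨j, j + p - 1, by omega, ⟨by omega, by omega, ?_⟩, by omega, by omega,
                Or.inl ?_⟩ <;>
              · simp only [colf]
                split_ifs <;> first | omega | (ext <;> simp only <;> omega)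
      obtain ⟨a, b, hab, ⟨ha1, ha2, ha3⟩, hb1, hb2, hb3⟩ := hgoal
      apply Finset.one_lt_card.mpr
      refine ⟨a, mem_filter.mpr ⟨mem_range.mpr ha1, fun h => ha2 ((hz _).mp h), ?_⟩,
        b, mem_filter.mpr ⟨mem_range.mpr hb1, fun h => hb2 ((hz _).mp h), ?_⟩, hab⟩
      · rcases hkk with ⟨rfl, rfl⟩ | ⟨rfl, rfl⟩
        · exact Or.inl ha3
        · exact Or.inr ha3
      · rcases hkk with ⟨rfl, rfl⟩ | ⟨rfl, rfl⟩
        · exact hb3
        · exact hb3.symm
    rintro ⟨j, s⟩ hk
    simp only [mem_product, mem_range] at hk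
    rcases Nat.eq_zero_or_pos s with rfl | hs
    · refine ⟨(j, 1), ?_, by simp, key j 1 hk.1 le_rfl (by omega) _ _ (Or.inl ⟨rfl, rfl⟩)⟩
      simp only [mem_product, mem_range]
      omega
    · refine ⟨(j, 0), ?_, ?_, key j s hk.1 hs hk.2 _ _ (Or.inr ⟨rfl, rfl⟩)⟩
      · simp only [mem_product, mem_range]
        omega
      · simp only [ne_eq, Prod.mk.injEq]
        omega

end Pool.Agent.Work.MP_00dc5c_co
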