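import Pool.Agent.Work.MP_00dc5c_co.Upper
import Pool.Agent.Work.MP_00dc5c_co.Lower
import Mathlib.Tactic.IntervalCases

/-! The exact value of the maximum double coalition number. -/

namespace Pool.Agent.Work.MP_00dc5c_co

open Finset

/-- The closed form (only used inside proofs). -/
def val (δ Δ : ℕ) : ℕ :=
  if 4 * ((δ + 1) / 2) ≤ Δ + 3 then (δ + 1) / 2 * (Δ + 3 - 2 * ((δ + 1) / 2)) else (Δ + 3) ^ 2 / 8

theorem le_val (δ Δ p : ℕ) (hp : 2 * p ≤ δ + 1) : p * (Δ + 3 - 2 * p) ≤ val δ Δ := by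
  unfold val
  have hpr : p ≤ (δ + 1) / 2 := by omega
  generalize (δ + 1) / 2 = r at *
  generalize Δ + 3 = M at *
  split_ifs with h
  · obtain ⟨d, rfl⟩ := Nat.exists_eq_add_of_le hpr
    obtain ⟨e, rfl⟩ := Nat.exists_eq_add_of_le h
    have h1 : 4 * (p + d) + e - 2 * p = 2 * p + 4 * d + e := by omega
    have h2 : 4 * (p + d) + e - 2 * (p + d) = 2 * p + 2 * d + e := by omega
    rw [h1, h2]
    nlinarith [Nat.zero_le (d * d), Nat.zero_le (d * e)]
  · rw [Nat.le_div_iff_mul_le (by norm_num)]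
    by_cases h2 : 2 * p ≤ M
    · obtain ⟨e, rfl⟩ := Nat.exists_eq_add_of_le h2
      have h1 : 2 * p + e - 2 * p = e := by omega
      rw [h1]
      zify
      nlinarith [sq_nonneg ((e : ℤ) - 2 * p)]
    · have h1 : M - 2 * p = 0 := by omega
      rw [h1]
      simp

theorem exists_eq_val (δ Δ : ℕ) (h1 : 1 ≤ δ) (h2 : δ ≤ Δ) :
    ∃ p, 1 ≤ p ∧ 2 * p ≤ δ + 1 ∧ p * (Δ + 3 - 2 * p) = val δ Δ := by
  unfold val
  split_ifs with h
  · exact ⟨(δ + 1) / 2, by omega, by omega, rfl⟩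
  · refine ⟨(Δ + 4) / 4, by omega, by omega, ?_⟩
    obtain ⟨q, c, hc, rfl⟩ : ∃ q c, c < 4 ∧ Δ = 4 * q + c :=
      ⟨Δ / 4, Δ % 4, Nat.mod_lt _ (by norm_num), by omega⟩
    have h3 : (4 * q + c + 4) / 4 = q + 1 := by omega
    have h4 : 4 * q + c + 3 - 2 * (q + 1) = 2 * q + c + 1 := by omega
    rw [h3, h4]
    symm
    apply Nat.div_eq_of_lt_le
    · interval_cases c <;> nlinarith
    · interval_cases c <;> nlinarith

variable {V : Type} [Fintype V] [DecidableEq V] (G : SimpleGraph V) [DecidableRel G.Adj]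

theorem mem_le_val (hδ : 1 ≤ G.minDegree) (k : ℕ)
    (hk : k ∈ {k : ℕ | ∃ P : Finpartition (Finset.univ : Finset V),
      IsDCPartition G P ∧ P.parts.card = k}) : k ≤ val G.minDegree G.maxDegree := by
  obtain ⟨P, hP, rfl⟩ := hk
  have : Nonempty V := by
    by_contra h
    rw [not_nonempty_iff] at h
    rw [SimpleGraph.minDegree_of_subsingleton] at hδ
    omega
  obtain ⟨p, h1, h2⟩ := partition_bound G P hP
  exact h2.trans (le_val _ _ p h1)

theorem DC_le_val (hδ : 1 ≤ G.minDegree) : DC G ≤ val G.minDegree G.maxDegree :=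
  csSup_le' (mem_le_val G hδ)

theorem exists_extremal (δ Δ : ℕ) (h1 : 1 ≤ δ) (h2 : δ ≤ Δ) :
    ∃ (V : Type) (_ : Fintype V) (_ : DecidableEq V) (G : SimpleGraph V)
      (_ : DecidableRel G.Adj), (2 ≤ δ → G.Connected) ∧ G.minDegree = δ ∧ G.maxDegree = Δ ∧
        DC G = val δ Δ := by
  obtain ⟨p, hp1, hp2, hp3⟩ := exists_eq_val δ Δ h1 h2
  have main : ∀ σ : Equiv.Perm (Fin (p + 1)), (2 ≤ δ ∨ σ = Equiv.refl _) →
      DC (gr p δ Δ σ) = val δ Δ := by
    intro σ hσ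
    have e1 := minDegree_gr (p := p) h1 h2 σ
    have e2 := maxDegree_gr hp1 h1 h2 σ
    apply le_antisymm
    · have := DC_le_val (gr p δ Δ σ) (by rw [e1]; exact h1)
      rwa [e1, e2] at this
    · obtain ⟨P, hP, hc⟩ := exists_partition_gr hp1 hp2 h2 σ hσ
      exact le_csSup ⟨_, mem_le_val (gr p δ Δ σ) (by rw [e1]; exact h1)⟩ ⟨P, hP, hc.trans hp3⟩
  by_cases h : 2 ≤ δ
  · exact ⟨Vtx p δ Δ, inferInstance, inferInstance, gr p δ Δ (finRotate (p + 1)), inferInstance,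
      fun _ => connected_gr h h2, minDegree_gr h1 h2 _, maxDegree_gr hp1 h1 h2 _,
      main _ (Or.inl h)⟩
  · exact ⟨Vtx p δ Δ, inferInstance, inferInstance, gr p δ Δ (Equiv.refl _), inferInstance,
      fun h' => absurd h' h, minDegree_gr h1 h2 _, maxDegree_gr hp1 h1 h2 _,
      main _ (Or.inr rfl)⟩

end Pool.Agent.Work.MP_00dc5c_co
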