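import Pool.Agent.Work.MP_00dc5c_co.Defs
import Mathlib.Tactic.Linarith
import Mathlib.Tactic.Ring
import Mathlib.Algebra.Order.BigOperators.Group.Finset

/-! Upper bound on the size of a double coalition partition. -/

namespace Pool.Agent.Work.MP_00dc5c_co

open Finset

/-- A graph without isolated vertices has a spanning star forest. -/
theorem exists_star {Ω : Type} [Fintype Ω] [DecidableEq Ω] (R : Ω → Ω → Prop)
    (hs : ∀ x y, R x y → R y x) (hi : ∀ x, ¬ R x x) (hn : ∀ x, ∃ y, R x y) :
    ∃ c : Ω → Ω, (∀ x, c (c x) = c x) ∧ (∀ x, c x = x ∨ R x (c x)) ∧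
      ∀ z, c z = z → ∃ x, x ≠ z ∧ c x = z := by
  classical
  let good : (Ω → Ω) → Prop := fun c => (∀ x, c (c x) = c x) ∧ (∀ x, c x = x ∨ R x (c x))
  let lon : (Ω → Ω) → Finset Ω := fun c => univ.filter (fun z => c z = z ∧ ∀ x, c x = z → x = z)
  obtain ⟨c, hc, hmin⟩ := Finset.exists_min_image (univ.filter good) (fun c => (lon c).card)
    ⟨id, by simp [good]⟩
  have hc' : good c := (mem_filter.mp hc).2
  refine ⟨c, hc'.1, hc'.2, ?_⟩
  intro z hz
  by_contra hcon
  push Not at hcon
  have hlz : ∀ x, c x = z → x = z := by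
    intro x hx
    by_contra h
    exact hcon x h hx
  obtain ⟨y, hy⟩ := hn z
  have hyz : y ≠ z := by
    rintro rfl
    exact hi _ hy
  let B : Ω → Prop := fun x => x = y ∨ x = z ∨ (x = c y ∧ ∀ x', c x' = c y → x' = c y ∨ x' = y)
  let c' : Ω → Ω := fun x => if B x then y else c x
  have h1 : ∀ x, B x → c' x = y := fun x h => if_pos h
  have h2 : ∀ x, ¬ B x → c' x = c x := fun x h => if_neg h
  have hBy : B y := Or.inl rfl
  have hBz : B z := Or.inr (Or.inl rfl)
  have hg : good c' := by
    constructor
    · intro x
      by_cases hx : B x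
      · rw [h1 x hx, h1 y hBy]
      · rw [h2 x hx]
        by_cases hcx : B (c x)
        · rw [h1 _ hcx]
          rcases hcx with h | h | h
          · exact h.symm
          · exact absurd (Or.inr (Or.inl (hlz x h))) hx
          · rcases h.2 x h.1 with h' | h'
            · exact absurd (Or.inr (Or.inr ⟨h', h.2⟩)) hx
            · exact absurd (Or.inl h') hx
        · rw [h2 _ hcx, hc'.1]
    · intro x
      by_cases hx : B x
      · rw [h1 x hx]
        rcases hx with h | h | h
        · exact Or.inl h.symm
        · exact Or.inr (h ▸ hy)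
        · rcases hc'.2 y with h' | h'
          · left
            rw [h.1, h']
          · right
            rw [h.1]
            exact hs _ _ h'
      · rw [h2 x hx]
        exact hc'.2 x
  have hsub : lon c' ⊆ (lon c).erase z := by
    intro u hu
    simp only [lon, mem_filter, mem_univ, true_and] at hu
    have huy : u ≠ y := by
      rintro rfl
      exact hyz (hu.2 z (h1 z hBz)).symm
    have hBu : ¬ B u := fun h => huy (by rw [← hu.1, h1 u h])
    have hcu : c u = u := by rw [← h2 u hBu, hu.1]
    have huz : u ≠ z := fun h => hBu (Or.inr (Or.inl h))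
    simp only [lon, mem_erase, mem_filter, mem_univ, true_and]
    refine ⟨huz, hcu, ?_⟩
    intro x hx
    by_cases hBx : B x
    · rcases hBx with h | h | h
      · subst h
        have : ¬ ∀ x', c x' = c x → x' = c x ∨ x' = x := fun h =>
          hBu (Or.inr (Or.inr ⟨hx.symm, h⟩))
        push Not at this
        obtain ⟨x', h3, h4, h5⟩ := this
        have hBx' : ¬ B x' := by
          rintro (h | h | h)
          · exact h5 h
          · subst h
            exact h4 (by rw [← h3, hz])
          · exact h4 h.1
        have := hu.2 x' (by rw [h2 x' hBx', h3, hx])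
        exact absurd (by rw [this, hx]) h4
      · subst h
        exact absurd (by rw [← hx, hz]) huz
      · rw [← hx, h.1, hc'.1]
    · exact hu.2 x (by rw [h2 x hBx, hx])
  have hzl : z ∈ lon c := by
    simp only [lon, mem_filter, mem_univ, true_and]
    exact ⟨hz, hlz⟩
  have h3 := hmin c' (mem_filter.mpr ⟨mem_univ _, hg⟩)
  have h4 := card_le_card hsub
  have h5 := card_erase_lt_of_mem hzl
  omega

/-- The abstract counting bound. -/
theorem abstract_bound {Ω W : Type} [Fintype Ω] [DecidableEq Ω] (R : Ω → Ω → Prop)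
    (hs : ∀ x y, R x y → R y x) (hi : ∀ x, ¬ R x x) (hn : ∀ x, ∃ y, R x y)
    (w : W → Ω → ℕ) (hw : ∀ v a b, R a b → 2 ≤ w v a + w v b)
    (hd : ∀ a, ∃ v, w v a ≤ 1) (δ Δ : ℕ) (hΔ : ∀ v, ∑ a, w v a ≤ Δ + 1)
    (hδ : ∃ v, ∑ a, w v a ≤ δ + 1) :
    ∃ p, 2 * p ≤ δ + 1 ∧ Fintype.card Ω ≤ p * (Δ + 3 - 2 * p) := by
  classical
  obtain ⟨c, hc1, hc2, hc3⟩ := exists_star R hs hi hn
  let C : Finset Ω := univ.filter (fun z => c z = z)
  have hmaps : ∀ x ∈ (univ : Finset Ω), c x ∈ C := fun x _ => by simp [C, hc1]
  have hsum : ∀ v, ∑ a, w v a = ∑ z ∈ C, ∑ x ∈ univ.filter (fun x => c x = z), w v x :=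
    fun v => (Finset.sum_fiberwise_of_maps_to hmaps _).symm
  have hfib : ∀ v, ∀ z ∈ C, 2 ≤ ∑ x ∈ univ.filter (fun x => c x = z), w v x := by
    intro v z hz
    have hz' : c z = z := (mem_filter.mp hz).2
    obtain ⟨x, hxz, hx⟩ := hc3 z hz'
    have hR : R x z := by
      rcases hc2 x with h | h
      · exact absurd (h.symm.trans hx) hxz
      · rwa [hx] at h
    have hsub : ({x, z} : Finset Ω) ⊆ univ.filter (fun x => c x = z) := by
      intro y hy
      simp only [mem_insert, mem_singleton] at hy
      rcases hy with rfl | rfl <;> simp [*]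
    have := Finset.sum_le_sum_of_subset (f := w v) hsub
    rw [sum_pair hxz] at this
    exact (hw v x z hR).trans this
  refine ⟨C.card, ?_, ?_⟩
  · obtain ⟨v, hv⟩ := hδ
    rw [hsum] at hv
    have := Finset.card_nsmul_le_sum C _ 2 (hfib v)
    simp only [smul_eq_mul] at this
    omega
  · have hcard : Fintype.card Ω = ∑ z ∈ C, (univ.filter (fun x => c x = z)).card := by
      rw [← Finset.card_univ]
      exact Finset.card_eq_sum_card_fiberwise (fun x hx => hmaps x hx)
    rw [hcard]
    have key : ∀ z ∈ C, (univ.filter (fun x => c x = z)).card ≤ Δ + 3 - 2 * C.card := by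
      intro z hz
      have hz' : c z = z := (mem_filter.mp hz).2
      obtain ⟨v, hv⟩ := hd z
      have h1 := hΔ v
      rw [hsum, ← Finset.add_sum_erase C _ hz] at h1
      have h2 := Finset.card_nsmul_le_sum (C.erase z) _ 2
        (fun y hy => hfib v y (mem_of_mem_erase hy))
      rw [card_erase_of_mem hz, smul_eq_mul] at h2
      have hzF : z ∈ univ.filter (fun x => c x = z) := by simp [hz']
      have h3 : ∀ x ∈ (univ.filter (fun x => c x = z)).erase z, 2 - w v z ≤ w v x := by
        intro x hx
        have hxz := ne_of_mem_erase hx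
        have hx' : c x = z := (mem_filter.mp (mem_of_mem_erase hx)).2
        have hR : R x z := by
          rcases hc2 x with h | h
          · exact absurd (h.symm.trans hx') hxz
          · rwa [hx'] at h
        have := hw v x z hR
        omega
      have h4 := Finset.card_nsmul_le_sum _ (fun x => w v x) _ h3
      rw [card_erase_of_mem hzF, smul_eq_mul] at h4
      rw [← Finset.add_sum_erase _ _ hzF] at h1
      have h5 : 1 < (univ.filter (fun x => c x = z)).card := by
        obtain ⟨x, hxz, hx⟩ := hc3 z hz'
        exact Finset.one_lt_card.mpr ⟨x, by simp [hx], z, hzF, hxz⟩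
      have h6 : 0 < C.card := card_pos.mpr ⟨z, hz⟩
      generalize (univ.filter (fun x => c x = z)).card = m at *
      have h7 : w v z = 0 ∨ w v z = 1 := by omega
      rcases h7 with h | h <;> rw [h] at h4 h1 <;> omega
    have := Finset.sum_le_card_nsmul C _ _ key
    simpa using this

variable {V : Type} [Fintype V] [DecidableEq V] (G : SimpleGraph V) [DecidableRel G.Adj]

theorem partition_bound [Nonempty V] (P : Finpartition (Finset.univ : Finset V))
    (hP : IsDCPartition G P) :
    ∃ p, 2 * p ≤ G.minDegree + 1 ∧ P.parts.card ≤ p * (G.maxDegree + 3 - 2 * p) := by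
  classical
  have hsum : ∀ v : V, ∑ a : P.parts, (insert v (G.neighborFinset v) ∩ a.1).card
      = G.degree v + 1 := by
    intro v
    rw [Finset.sum_coe_sort P.parts (fun a => (insert v (G.neighborFinset v) ∩ a).card)]
    rw [← Finset.card_biUnion]
    · have : P.parts.biUnion (fun a => insert v (G.neighborFinset v) ∩ a)
          = insert v (G.neighborFinset v) := by
        ext x
        simp only [mem_biUnion, mem_inter]
        constructor
        · rintro ⟨a, _, h, _⟩
          exact h
        · intro h
          obtain ⟨a, ha, hx⟩ := P.exists_mem (mem_univ x)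
          exact ⟨a, ha, h, hx⟩
      rw [this, card_insert_of_notMem (by simp), SimpleGraph.card_neighborFinset_eq_degree]
    · intro a ha b hb hab
      exact (P.disjoint ha hb hab).mono inter_subset_right inter_subset_right
  have := abstract_bound (Ω := P.parts) (W := V) (fun a b => IsDoubleCoalition G a.1 b.1)
    (fun a b h => ⟨h.1.symm, h.2.2.1, h.2.1, by rw [union_comm]; exact h.2.2.2⟩)
    (fun a h => h.2.1 (by simpa using h.2.2.2))
    (fun a => by
      obtain ⟨b, hb, _, h⟩ := hP a.1 a.2
      exact ⟨⟨b, hb⟩, h⟩)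
    (fun v a => (insert v (G.neighborFinset v) ∩ a.1).card)
    (fun v a b h => by
      have h1 := h.2.2.2 v
      rw [inter_union_distrib_left] at h1
      exact h1.trans (card_union_le _ _))
    (fun a => by
      obtain ⟨b, _, _, h⟩ := hP a.1 a.2
      have := h.2.1
      unfold IsDoubleDom at this
      push Not at this
      obtain ⟨v, hv⟩ := this
      exact ⟨v, by omega⟩)
    G.minDegree G.maxDegree
    (fun v => by
      rw [hsum]
      have := G.degree_le_maxDegree v
      omega)
    (by
      obtain ⟨v, hv⟩ := G.exists_minimal_degree_vertex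
      exact ⟨v, by rw [hsum, hv]⟩)
  simpa using this

end Pool.Agent.Work.MP_00dc5c_co
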